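import Pool.Agent.CBG.StmtsA

/-!
# Squad CBG, row PUS: the pull back of a smooth metric by a smooth map is smooth
-/

set_option autoImplicit false
set_option maxSynthPendingDepth 3

open scoped Manifold ContDiff Topology
open Set Filter MeasureTheory Bundle

namespace Pool.Agent.CBG.H7

/-- a family of continuous linear maps is smooth at a point if all its values are -/
theorem clm_at {D F G : Type*} [NormedAddCommGroup D] [NormedSpace ℝ D] [NormedAddCommGroup F]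
    [NormedSpace ℝ F] [NormedAddCommGroup G] [NormedSpace ℝ G] [FiniteDimensional ℝ F]
    {m : WithTop ℕ∞} {f : D → F →L[ℝ] G} {x : D} (h : ∀ y, ContDiffAt ℝ m (fun x => f x y) x) :
    ContDiffAt ℝ m f x := by
  let d := Module.finrank ℝ F
  have hd : d = Module.finrank ℝ (Fin d → ℝ) := (Module.finrank_fin_fun ℝ).symm
  let e₁ := ContinuousLinearEquiv.ofFinrankEq hd
  let e₂ := (e₁.arrowCongr (1 : G ≃L[ℝ] G)).trans (ContinuousLinearEquiv.piRing (Fin d))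
  rw [← Function.id_comp f, ← e₂.symm_comp_self]
  exact e₂.symm.contDiff.contDiffAt.comp x (contDiffAt_pi.mpr fun i => h _)

variable {n : ℕ} {E : Type} [TopologicalSpace E] [ChartedSpace (Ed n) E] [IsManifold (𝓡 n) ∞ E]
  {W : Type} [NormedAddCommGroup W] [NormedSpace ℝ W]

theorem sec_smooth {Ψ : W → E} {x : W} (h : ContMDiffAt 𝓘(ℝ, W) (𝓡 n) ∞ Ψ x) (v : W) :
    ContMDiffAt 𝓘(ℝ, W) ((𝓡 n).prod 𝓘(ℝ, Ed n)) ∞
      (fun y => (TotalSpace.mk' (Ed n) (Ψ y) (mfderiv 𝓘(ℝ, W) (𝓡 n) Ψ y v) :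
        TangentBundle (𝓡 n) E)) x := by
  have h1 : ContMDiffAt 𝓘(ℝ, W) 𝓘(ℝ, W →L[ℝ] Ed n) ∞
      (inTangentCoordinates 𝓘(ℝ, W) (𝓡 n) id Ψ (mfderiv 𝓘(ℝ, W) (𝓡 n) Ψ) x) x :=
    h.mfderiv_const (m := ∞) (by simp)
  have h2 : ContMDiffAt 𝓘(ℝ, W) (𝓘(ℝ, W).prod 𝓘(ℝ, W)) ∞
      (fun y => (TotalSpace.mk' W y v : TangentBundle 𝓘(ℝ, W) W)) x :=
    contMDiffAt_vectorSpace_iff_contDiffAt.2 contDiffAt_const
  exact ContMDiffAt.clm_apply_of_inCoordinates (b₁ := fun y : W => y) (b₂ := Ψ)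
    (v := fun _ => v) (ϕ := fun y => mfderiv 𝓘(ℝ, W) (𝓡 n) Ψ y) h1 h2 h

/-- **PUS**. -/
theorem pus : PusStmt := by
  intro n E _ _ _ g W _ _ _ Ψ x h
  apply clm_at
  intro v
  apply clm_at
  intro w
  have hg : ContMDiffAt 𝓘(ℝ, W) ((𝓡 n).prod 𝓘(ℝ, Ed n →L[ℝ] Ed n →L[ℝ] ℝ)) ∞
      (fun y => TotalSpace.mk' (Ed n →L[ℝ] Ed n →L[ℝ] ℝ)
        (E := fun p : E => TangentSpace (𝓡 n) p →L[ℝ] TangentSpace (𝓡 n) p →L[ℝ] ℝ)
        (Ψ y) (g.inner (Ψ y))) x := g.contMDiff.contMDiffAt.comp x h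
  have h1 : ContMDiffAt 𝓘(ℝ, W) ((𝓡 n).prod 𝓘(ℝ, ℝ)) ∞
      (fun y => TotalSpace.mk' ℝ (E := Bundle.Trivial E ℝ) (Ψ y)
        (g.inner (Ψ y) (mfderiv 𝓘(ℝ, W) (𝓡 n) Ψ y v) (mfderiv 𝓘(ℝ, W) (𝓡 n) Ψ y w))) x := by
    apply ContMDiffAt.clm_bundle_apply₂ (F₁ := Ed n) (F₂ := Ed n)
    · exact hg
    · exact sec_smooth h v
    · exact sec_smooth h w
  simp only [contMDiffAt_totalSpace] at h1
  exact h1.2.contDiffAt

end Pool.Agent.CBG.H7
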